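import Pool.Agent.Y970.PX.Stm
import Pool.Agent.W505.PV.VF
import Pool.Agent.W346.PV.Newt
import Pool.Agent.W154.PV.PV_DISJ

/-! # Project PX, job EX: few solutions have a column with a small least common multiple -/

set_option autoImplicit false

namespace Pool.Agent.Y914.PX.EX

open Finset Polynomial Pool.Agent.W89.VP Pool.Agent.Y970.PX Pool.Agent.W154.PV

lemma uniqB {s k : ℕ} (B : Finset (Fin s)) (hB : B.card = s - k)
    (x y y0 : Fin s → ℕ)
    (h1 : ∀ j : Fin k, ∑ i, x i ^ (j.val + 1) = ∑ i, y i ^ (j.val + 1))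
    (h0 : ∀ j : Fin k, ∑ i, x i ^ (j.val + 1) = ∑ i, y0 i ^ (j.val + 1))
    (hB2 : ∀ i ∈ B, y i = y0 i) : ∃ σ : Equiv.Perm (Fin s), y = y0 ∘ σ := by
  apply perm_of_PP
  have d1 := Pool.Agent.W346.PV.Newt.main s k x y h1
  have d0 := Pool.Agent.W346.PV.Newt.main s k x y0 h0
  have hd : (PP y0 - PP y).degree < ((s - k : ℕ) : WithBot ℕ) := by
    have e2 : PP y0 - PP y = (PP x - PP y) - (PP x - PP y0) := by ring
    rw [e2]
    exact lt_of_le_of_lt (degree_sub_le _ _) (max_lt d1 d0)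
  have hdiv : (∏ i ∈ B, ((X : ℤ[X]) - C (y i : ℤ))) ∣ PP y0 - PP y := by
    apply dvd_sub
    · have e : ∏ i ∈ B, ((X : ℤ[X]) - C (y i : ℤ)) = ∏ i ∈ B, ((X : ℤ[X]) - C (y0 i : ℤ)) :=
        prod_congr rfl fun i hi => by rw [hB2 i hi]
      rw [e]
      exact Finset.prod_dvd_prod_of_subset _ _ _ (subset_univ B)
    · exact Finset.prod_dvd_prod_of_subset _ _ _ (subset_univ B)
  have hdeg : (∏ i ∈ B, ((X : ℤ[X]) - C (y i : ℤ))).degree = ((s - k : ℕ) : WithBot ℕ) := by
    rw [degree_prod, sum_congr rfl (fun i _ => degree_X_sub_C (y i : ℤ)), sum_const, hB]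
    simp
  have h3 := eq_zero_of_dvd_of_degree_lt hdiv (by rw [hdeg]; exact hd)
  exact sub_eq_zero.1 h3

/-- the numbers whose distance to `u` divides `L` -/
def DD (L u : ℕ) : Finset ℕ :=
  (L.divisors.image fun d => u + d) ∪ (L.divisors.image fun d => u - d)

lemma card_DD (L u : ℕ) : (DD L u).card ≤ 2 * L.divisors.card := by
  unfold DD
  refine (card_union_le _ _).trans ?_
  have h1 : (L.divisors.image fun d => u + d).card ≤ L.divisors.card := card_image_le
  have h2 : (L.divisors.image fun d => u - d).card ≤ L.divisors.card := card_image_le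
  omega

lemma mem_DD {L u v : ℕ} (hL : L ≠ 0) (h : ds v u ∣ L) : v ∈ DD L u := by
  have hd : ds v u ∈ L.divisors := Nat.mem_divisors.2 ⟨h, hL⟩
  unfold DD
  rw [mem_union, mem_image, mem_image]
  rcases le_total u v with h1 | h1
  · left
    exact ⟨_, hd, by unfold ds; omega⟩
  · right
    exact ⟨_, hd, by unfold ds; omega⟩

lemma ds_pos {u v : ℕ} (h : u ≠ v) : 1 ≤ ds u v := by unfold ds; omega

lemma ds_le {u v N : ℕ} (hu : u ≤ N) (hv : v ≤ N) : ds u v ≤ N := by
  unfold ds; omega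

lemma lcm_bounds {s N : ℕ} (g : Fin s → ℕ) (h1 : ∀ i, 1 ≤ g i) (h2 : ∀ i, g i ≤ N) :
    univ.lcm g ≠ 0 ∧ univ.lcm g ≤ N ^ s := by
  have hp : ∏ i, g i ≠ 0 := prod_ne_zero_iff.2 fun i _ => (Nat.one_le_iff_ne_zero.1 (h1 i))
  have hdv : univ.lcm g ∣ ∏ i, g i := Finset.lcm_dvd fun i _ => dvd_prod_of_mem g (mem_univ i)
  refine ⟨fun h => hp (by rw [h] at hdv; exact Nat.eq_zero_of_zero_dvd hdv), ?_⟩
  refine (Nat.le_of_dvd (Nat.pos_of_ne_zero hp) hdv).trans ?_
  refine (prod_le_prod (fun _ _ => Nat.zero_le _) fun i _ => h2 i).trans ?_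
  rw [prod_const, card_univ, Fintype.card_fin]

open scoped Classical in
/-- the solutions with a small least common multiple in the column `j` -/
noncomputable def Sj (s k N : ℕ) (W : ℝ) (j : Fin s) : Finset ((Fin s → ℕ) × (Fin s → ℕ)) :=
  (VD s k N).filter (fun p => ((univ.lcm (fun i => ds (p.1 i) (p.2 j)) : ℕ) : ℝ) < W)

lemma col {s k : ℕ} (hks : k < s) (C' ε' : ℝ) (hε' : 0 < ε')
    (hdiv : ∀ n : ℕ, 1 ≤ n → (n.divisors.card : ℝ) ≤ C' * (n : ℝ) ^ ε') (hC' : 0 < C') (N : ℕ)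
    (hN : 1 ≤ N) (W : ℝ) (hW : 1 ≤ W) (j : Fin s) :
    ((Sj s k N W j).card : ℝ) ≤
      s.factorial * ((N : ℝ) ^ (s - k) * W * (2 * (C' * ((N : ℝ) ^ s) ^ ε')) ^ s) := by
  classical
  obtain ⟨B, hjB, hB⟩ : ∃ B : Finset (Fin s), j ∈ B ∧ B.card = s - k := by
    obtain ⟨B, h1, h2, h3⟩ := Finset.exists_subsuperset_card_eq (s := {j}) (t := univ)
      (n := s - k) (subset_univ _) (by rw [card_singleton]; omega)
      (by rw [card_univ, Fintype.card_fin]; omega)
    exact ⟨B, h1 (mem_singleton_self j), h3⟩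
  set Φ : (Fin s → ℕ) × (Fin s → ℕ) → (Fin s → ℕ) × (Fin s → ℕ) :=
    fun p => (fun i => if i ∈ B then p.2 i else 0, p.1) with hΦ
  set Z : Finset (Fin s → ℕ) := Fintype.piFinset fun i => if i ∈ B then Icc 1 N else {0} with hZ
  set Ls : Finset ℕ := (Icc 1 ⌊W⌋₊).filter (fun L => L ≤ N ^ s) with hLs
  set T : Finset ((Fin s → ℕ) × (Fin s → ℕ)) := (Z ×ˢ Ls).biUnion fun q =>
    ({q.1} : Finset (Fin s → ℕ)) ×ˢ Fintype.piFinset (fun _ : Fin s => DD q.2 (q.1 j)) with hT
  -- the fibres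
  have hfib : ∀ b ∈ (Sj s k N W j).image Φ,
      ((Sj s k N W j).filter fun p => Φ p = b).card ≤ s.factorial := by
    intro b hb
    obtain ⟨p0, hp0, rfl⟩ := mem_image.1 hb
    have hsub : ((Sj s k N W j).filter fun p => Φ p = Φ p0) ⊆
        (univ : Finset (Equiv.Perm (Fin s))).image
          (fun σ : Equiv.Perm (Fin s) => (p0.1, p0.2 ∘ σ)) := by
      intro p hp
      obtain ⟨hp, hpe⟩ := mem_filter.1 hp
      have hp' := (mem_VD p).1 (mem_filter.1 hp).1
      have hp0' := (mem_VD p0).1 (mem_filter.1 hp0).1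
      have e1 : p.1 = p0.1 := congrArg Prod.snd hpe
      have e2 : ∀ i ∈ B, p.2 i = p0.2 i := by
        intro i hi
        have := congrFun (congrArg Prod.fst hpe) i
        simpa [hΦ, hi] using this
      obtain ⟨σ, hσ⟩ := uniqB B hB p0.1 p.2 p0.2 (by rw [← e1]; exact hp'.2.1) hp0'.2.1 e2
      exact mem_image.2 ⟨σ, mem_univ _, Prod.ext e1.symm hσ.symm⟩
    refine (card_le_card hsub).trans (card_image_le.trans ?_)
    rw [card_univ, Fintype.card_perm, Fintype.card_fin]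
  have h1 := card_le_mul_card_image (Sj s k N W j) s.factorial hfib
  -- the image
  have himg : (Sj s k N W j).image Φ ⊆ T := by
    intro b hb
    obtain ⟨p, hp, rfl⟩ := mem_image.1 hb
    obtain ⟨hpV, hpW⟩ := mem_filter.1 hp
    obtain ⟨⟨hx, hy⟩, _, hne⟩ := (mem_VD p).1 hpV
    have hL := lcm_bounds (N := N) (fun i => ds (p.1 i) (p.2 j)) (fun i => ds_pos (hne i j))
      (fun i => ds_le (hx i).2 (hy j).2)
    rw [hT, mem_biUnion]
    refine ⟨((Φ p).1, univ.lcm (fun i => ds (p.1 i) (p.2 j))), ?_, ?_⟩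
    · rw [mem_product]
      constructor
      · rw [hZ, Fintype.mem_piFinset]
        intro i
        by_cases hi : i ∈ B
        · simp only [hΦ, hi, if_true]
          exact mem_Icc.2 (hy i)
        · simp only [hΦ, hi, if_false]
          exact mem_singleton_self 0
      · rw [hLs, mem_filter, mem_Icc]
        exact ⟨⟨Nat.one_le_iff_ne_zero.2 hL.1, Nat.le_floor hpW.le⟩, hL.2⟩
    · rw [mem_product]
      refine ⟨mem_singleton_self _, ?_⟩
      rw [Fintype.mem_piFinset]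
      intro i
      have e3 : (Φ p).1 j = p.2 j := by simp only [hΦ, hjB, if_true]
      show p.1 i ∈ DD _ ((Φ p).1 j)
      rw [e3]
      exact mem_DD hL.1 (dvd_lcm (mem_univ i))
  have h2 : (((Sj s k N W j).image Φ).card : ℝ) ≤
      (N : ℝ) ^ (s - k) * W * (2 * (C' * ((N : ℝ) ^ s) ^ ε')) ^ s := by
    have h3 : (((Sj s k N W j).image Φ).card : ℝ) ≤ (T.card : ℝ) := by
      exact_mod_cast card_le_card himg
    refine h3.trans ?_
    have h4 : (T.card : ℝ) ≤ ∑ q ∈ Z ×ˢ Ls, (2 * (C' * ((N : ℝ) ^ s) ^ ε')) ^ s := by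
      have h5 : (T.card : ℝ) ≤ ∑ q ∈ Z ×ˢ Ls, ((({q.1} : Finset (Fin s → ℕ)) ×ˢ
          Fintype.piFinset (fun _ : Fin s => DD q.2 (q.1 j))).card : ℝ) := by
        exact_mod_cast card_biUnion_le
      refine h5.trans (sum_le_sum fun q hq => ?_)
      rw [card_product, card_singleton, one_mul, Fintype.card_piFinset, prod_const, card_univ,
        Fintype.card_fin]
      push_cast
      apply pow_le_pow_left₀ (Nat.cast_nonneg _)
      have hq2 := (mem_filter.1 (mem_product.1 hq).2)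
      have hq3 := mem_Icc.1 hq2.1
      have h6 : ((DD q.2 (q.1 j)).card : ℝ) ≤ 2 * (q.2.divisors.card : ℝ) := by
        exact_mod_cast card_DD _ _
      have h7 := hdiv q.2 hq3.1
      have h8 : (q.2 : ℝ) ^ ε' ≤ ((N : ℝ) ^ s) ^ ε' := by
        apply Real.rpow_le_rpow (Nat.cast_nonneg _) _ hε'.le
        exact_mod_cast hq2.2
      have h9 := mul_le_mul_of_nonneg_left h8 hC'.le
      linarith
    refine h4.trans ?_
    rw [sum_const, nsmul_eq_mul, card_product]
    have hZc : (Z.card : ℝ) = (N : ℝ) ^ (s - k) := by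
      rw [hZ, Fintype.card_piFinset]
      have e4 : ∀ i : Fin s, (if i ∈ B then Icc 1 N else ({0} : Finset ℕ)).card =
          if i ∈ B then N else 1 := by
        intro i
        split_ifs
        · simp
        · simp
      rw [prod_congr rfl (fun i _ => e4 i), prod_ite_mem, univ_inter, prod_const, hB]
      push_cast
      rfl
    have hLc : (Ls.card : ℝ) ≤ W := by
      have h5 : Ls.card ≤ ⌊W⌋₊ := by
        rw [hLs]
        refine (card_filter_le _ _).trans ?_
        rw [Nat.card_Icc]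
        omega
      exact (Nat.cast_le.2 h5).trans (Nat.floor_le (by linarith))
    push_cast
    rw [hZc]
    have hpos : (0 : ℝ) ≤ (2 * (C' * ((N : ℝ) ^ s) ^ ε')) ^ s := by positivity
    exact mul_le_mul_of_nonneg_right (mul_le_mul_of_nonneg_left hLc (by positivity)) hpos
  have h10 : ((Sj s k N W j).card : ℝ) ≤ s.factorial * (((Sj s k N W j).image Φ).card : ℝ) := by
    exact_mod_cast h1
  exact h10.trans (mul_le_mul_of_nonneg_left h2 (by positivity))

theorem main : EXStm := by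
  intro s k ε hks hε
  have hs : 0 < s := lt_of_le_of_lt (Nat.zero_le _) hks
  have hsr : (0 : ℝ) < s := by exact_mod_cast hs
  set ε' : ℝ := ε / (s * s) with hε'
  have hε'0 : 0 < ε' := by positivity
  obtain ⟨C', hC', hdiv⟩ := Pool.Agent.W505.PV.VF.mainDIV ε' hε'0
  refine ⟨s * (s.factorial * (2 * C') ^ s), by positivity, fun N hN W hW => ?_⟩
  classical
  have hNr : (1 : ℝ) ≤ N := by exact_mod_cast hN
  have hN0 : (0 : ℝ) < N := by linarith
  have hsub : ((VD s k N).filter (fun p => ∃ j,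
      ((univ.lcm (fun i => ds (p.1 i) (p.2 j)) : ℕ) : ℝ) < W)) ⊆
        univ.biUnion fun j => Sj s k N W j := by
    intro p hp
    obtain ⟨h1, j, hj⟩ := mem_filter.1 hp
    exact mem_biUnion.2 ⟨j, mem_univ j, mem_filter.2 ⟨h1, hj⟩⟩
  have h1 : ((((VD s k N).filter (fun p => ∃ j,
      ((univ.lcm (fun i => ds (p.1 i) (p.2 j)) : ℕ) : ℝ) < W)).card : ℕ) : ℝ) ≤
        ∑ j : Fin s, ((Sj s k N W j).card : ℝ) := by
    exact_mod_cast (card_le_card hsub).trans card_biUnion_le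
  refine h1.trans ((sum_le_sum fun j _ => col hks C' ε' hε'0 hdiv hC' N hN W hW j).trans ?_)
  rw [sum_const, card_univ, Fintype.card_fin, nsmul_eq_mul]
  have e1 : (2 * (C' * ((N : ℝ) ^ s) ^ ε')) ^ s = (2 * C') ^ s * (N : ℝ) ^ ε := by
    rw [← mul_assoc, mul_pow]
    congr 1
    rw [← Real.rpow_natCast (N : ℝ) s, ← Real.rpow_mul hN0.le, ← Real.rpow_natCast _ s,
      ← Real.rpow_mul hN0.le]
    congr 1
    rw [hε']
    field_simp
  have e2 : (N : ℝ) ^ (((s - k : ℕ) : ℝ) + ε) = (N : ℝ) ^ (s - k) * (N : ℝ) ^ ε := by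
    rw [Real.rpow_add hN0, Real.rpow_natCast]
  rw [e1, e2]
  apply le_of_eq
  ring

end Pool.Agent.Y914.PX.EX
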